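import Mathlib

/-!
Combinatorial part of the construction of two strongly Haar meager sets in a product of countable
discrete abelian groups with elements of infinite order, whose union is not strongly Haar meager.
(Generalisation of `Pool.Agent.W924.SHM.Comb`: the heights are given by homomorphisms to the
rational numbers.)
-/

namespace Pool.Agent.Y884.SHM

/-- number of zeros of `x` before `n` -/
def dc (x : ℕ → ℤ) (n : ℕ) : ℕ := ((Finset.range n).filter (fun i => x i = 0)).card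

/-- first witness: a tree-like compact set -/
def C0 : Set (ℕ → ℤ) := {x | ∀ n, 0 ≤ x n ∧ x n ≤ (n : ℤ) + 1 - (dc x n : ℤ)}

/-- second witness: a box -/
def C1 : Set (ℕ → ℤ) := {x | ∀ n, 0 ≤ x n ∧ x n ≤ (n : ℤ) + 1}

section defs

variable {H : ℕ → Type} [∀ n, AddCommGroup (H n)] (e : ∀ n, H n) (h : ∀ n, H n →+ ℚ)

/-- the embedding of the integer sequences -/
def em (x : ℕ → ℤ) : ∀ n, H n := fun n => x n • e n

/-- restriction to the first `n + 1` coordinates -/
def R (n : ℕ) (z : ∀ n, H n) : ∀ i : Fin (n + 1), H i := fun i => z i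

/-- codes of compact sets -/
abbrev Code (H : ℕ → Type) : Type := (n : ℕ) → Finset (∀ i : Fin (n + 1), H i)

def InC (F : Code H) (y : ∀ n, H n) : Prop := ∀ n, R n y ∈ F n

def Top (F : Code H) (y : ∀ n, H n) : Prop :=
  ∀ k, ∃ l, k ≤ l ∧ ∃ n, l ≤ n ∧ ∀ n', n ≤ n' → ∀ z : ∀ n, H n, R n' z ∈ F n' →
    (∀ j, j < l → z j = y j) → h n (z n) ≤ h n (y n)

def Win (F : Code H) (i n : ℕ) (z : ∀ n, H n) : Prop :=
  ∃ (t : H i) (w : ℤ), 0 ≤ w ∧ w ≤ (i : ℤ) + 1 ∧ z i = t + w • e i ∧
    ∀ v : ℤ, 0 ≤ v → v ≤ (i : ℤ) + 1 → R n (Function.update z i (t + v • e i)) ∈ F n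

def Reg (F : Code H) (y : ∀ n, H n) : Prop :=
  ∃ N l0, ∀ i, N ≤ i → ∀ n, i ≤ n → ∀ z : ∀ n, H n, R n z ∈ F n →
    (∀ j, j < l0 → z j = y j) → Win e F i n z

def PW (F : Code H) (N : ℕ) (y : ∀ n, H n) : Prop := ∀ i, N ≤ i → ∀ n, i ≤ n → Win e F i n y

def Phi0 (F : Code H) (y : ∀ n, H n) : Prop := InC F y ∧ Top h F y ∧ Reg e F y

def Phi1 (F : Code H) (y : ∀ n, H n) : Prop := InC F y ∧ ¬ ∃ N, PW e F N y

end defs

theorem dc_le (x : ℕ → ℤ) (n : ℕ) : dc x n ≤ n := by
  unfold dc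
  refine (Finset.card_filter_le _ _).trans ?_
  simp

theorem dc_congr {x y : ℕ → ℤ} {n : ℕ} (h : ∀ j, j < n → x j = y j) : dc x n = dc y n := by
  unfold dc
  congr 1
  apply Finset.filter_congr
  intro i hi
  rw [h i (Finset.mem_range.1 hi)]

theorem dc_mono_n (x : ℕ → ℤ) {m n : ℕ} (h : m ≤ n) : dc x m ≤ dc x n := by
  unfold dc
  apply Finset.card_le_card
  intro i hi
  simp only [Finset.mem_filter, Finset.mem_range] at hi ⊢
  exact ⟨lt_of_lt_of_le hi.1 h, hi.2⟩

theorem dc_anti {x y : ℕ → ℤ} {n : ℕ} (h : ∀ j, j < n → x j = 0 → y j = 0) :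
    dc x n ≤ dc y n := by
  unfold dc
  apply Finset.card_le_card
  intro i hi
  simp only [Finset.mem_filter, Finset.mem_range] at hi ⊢
  exact ⟨hi.1, h i hi.1 hi.2⟩

/-- no zeros between `m` and `n` -/
theorem dc_stable {x : ℕ → ℤ} {m n : ℕ} (h : m ≤ n) (hz : ∀ j, m ≤ j → j < n → x j ≠ 0) :
    dc x n = dc x m := by
  unfold dc
  congr 1
  ext i
  simp only [Finset.mem_filter, Finset.mem_range]
  constructor
  · rintro ⟨h1, h2⟩
    refine ⟨?_, h2⟩
    by_contra hc
    exact hz i (not_lt.1 hc) h1 h2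
  · rintro ⟨h1, h2⟩
    exact ⟨lt_of_lt_of_le h1 h, h2⟩

/-- one zero fewer -/
theorem dc_update {x y : ℕ → ℤ} {n n1 : ℕ} (hn : n1 < n) (h0 : x n1 = 0) (h1 : y n1 ≠ 0)
    (h : ∀ j, j < n → j ≠ n1 → y j = x j) : dc y n + 1 = dc x n := by
  unfold dc
  have : (Finset.range n).filter (fun i => x i = 0)
      = insert n1 ((Finset.range n).filter (fun i => y i = 0)) := by
    ext i
    simp only [Finset.mem_filter, Finset.mem_range, Finset.mem_insert]
    constructor
    · rintro ⟨h2, h3⟩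
      by_cases hi : i = n1
      · exact Or.inl hi
      · exact Or.inr ⟨h2, by rw [h i h2 hi]; exact h3⟩
    · rintro (h2 | ⟨h2, h3⟩)
      · subst h2
        exact ⟨hn, h0⟩
      · refine ⟨h2, ?_⟩
        by_cases hi : i = n1
        · subst hi
          exact absurd h3 h1
        · rw [← h i h2 hi]; exact h3
  rw [this, Finset.card_insert_of_notMem]
  simp only [Finset.mem_filter, Finset.mem_range, not_and]
  intro _
  exact h1

section keys

variable {H : ℕ → Type} [∀ n, AddCommGroup (H n)] {e : ∀ n, H n} {h : ∀ n, H n →+ ℚ}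

omit [∀ n, AddCommGroup (H n)] in
theorem R_congr {n : ℕ} {z z' : ∀ n, H n} (h : ∀ j, j < n + 1 → z j = z' j) :
    R n z = R n z' := by
  funext i
  exact h i i.2

/-- Key lemma for the first witness. -/
theorem key0 (he : ∀ n, h n (e n) = 1) (F : Code H) (s : ∀ n, H n) (x0 : ℕ → ℤ) (m : ℕ)
    (hx0 : x0 ∈ C0)
    (Hy : ∀ x ∈ C0, (∀ j, j < m → x j = x0 j) → ∀ n, ∃ x' ∈ C0, (∀ j, j < n → x' j = x j) ∧
      Phi0 e h F (em e x' + s)) : False := by
  have hem : ∀ (x : ℕ → ℤ) (n : ℕ), h n ((em e x + s) n) = (x n : ℚ) + h n (s n) := by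
    intro x n
    show h n (x n • e n + s n) = _
    rw [map_add, map_zsmul, he, zsmul_eq_mul, mul_one]
  -- a first point and its regularity data
  obtain ⟨x1, hx1, hx1a, -, -, N, l0, hreg⟩ := Hy x0 hx0 (fun _ _ => rfl) m
  set m' : ℕ := max m (max N l0) with hm'
  have hmm : m ≤ m' := le_max_left _ _
  have hNm : N ≤ m' := le_trans (le_max_left _ _) (le_max_right _ _)
  have hlm : l0 ≤ m' := le_trans (le_max_right _ _) (le_max_right _ _)
  have base : ∀ x ∈ C0, (∀ j, j < m' → x j = x1 j) → ∀ n, ∃ x' ∈ C0,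
      (∀ j, j < n → x' j = x j) ∧ Phi0 e h F (em e x' + s) := by
    intro x hx h n
    exact Hy x hx (fun j hj => by rw [h j (lt_of_lt_of_le hj hmm), hx1a j hj]) n
  have leaf : ∀ x ∈ C0, (∀ j, j < m' → x j = x1 j) → ∀ n, R n (em e x + s) ∈ F n := by
    intro x hx h n
    obtain ⟨x', -, h1, h2, -⟩ := base x hx h (n + 1)
    rw [R_congr (z := em e x + s) (z' := em e x' + s) (fun j hj => by
      show x j • e j + s j = x' j • e j + s j
      rw [h1 j hj])]
    exact h2 n
  have T0 : ∀ x ∈ C0, (∀ j, j < m' → x j = x1 j) → ∀ k, ∃ x' ∈ C0,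
      (∀ j, j < m' → x' j = x1 j) ∧ (∀ j, j < k → x' j = x j) ∧
      ∃ l, k ≤ l ∧ ∃ n, l ≤ n ∧ ∀ n', n ≤ n' → ∀ z : ∀ n, H n, R n' z ∈ F n' →
        (∀ j, j < l → z j = em e x' j + s j) →
        h n (z n) ≤ h n (s n) + ((n : ℚ) + 1 - (dc x' l : ℚ)) := by
    intro x hx hh k
    obtain ⟨x', hx', h1, -, h3, -⟩ := base x hx hh (max k m')
    obtain ⟨l, hkl, n, hln, hb⟩ := h3 k
    refine ⟨x', hx', fun j hj => ?_, fun j hj => h1 j (lt_of_lt_of_le hj (le_max_left _ _)),
      l, hkl, n, hln, fun n' hn' z hz hag => ?_⟩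
    · rw [h1 j (lt_of_lt_of_le hj (le_max_right _ _)), hh j hj]
    · have h4 := hb n' hn' z hz (fun j hj => by simpa using hag j hj)
      have h5 := (hx' n).2
      have h6 : (dc x' l : ℤ) ≤ dc x' n := by exact_mod_cast dc_mono_n x' hln
      rw [hem] at h4
      have h7 : x' n ≤ (n : ℤ) + 1 - (dc x' l : ℤ) := by linarith
      have h8 : (x' n : ℚ) ≤ (n : ℚ) + 1 - (dc x' l : ℚ) := by exact_mod_cast h7
      linarith
  -- first top time
  obtain ⟨x2, hx2, hx2a, -, l1, hl1, n1, hn1, hQ⟩ := T0 x1 hx1 (fun _ _ => rfl) m'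
  -- the node with a zero at `n1`
  let x3 : ℕ → ℤ := fun j => if j < l1 then x2 j else if j = n1 then 0 else 1
  have hx3lt : ∀ j, j < l1 → x3 j = x2 j := fun j hj => by simp [x3, hj]
  have hx3n1 : x3 n1 = 0 := by simp [x3, not_lt.2 hn1]
  have hx3 : x3 ∈ C0 := by
    intro j
    by_cases hj : j < l1
    · have e : dc x3 j = dc x2 j := dc_congr (fun i hi => hx3lt i (lt_trans hi hj))
      rw [hx3lt j hj, e]
      exact hx2 j
    · have e : (dc x3 j : ℤ) ≤ j := by exact_mod_cast dc_le x3 j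
      have hv : x3 j = 0 ∨ x3 j = 1 := by
        simp only [x3, hj, if_false]
        by_cases h : j = n1
        · left; simp [h]
        · right; simp [h]
      rcases hv with hv | hv <;> rw [hv] <;> constructor <;> linarith
  have hx3a : ∀ j, j < m' → x3 j = x1 j := fun j hj => by
    rw [hx3lt j (lt_of_lt_of_le hj hl1), hx2a j hj]
  obtain ⟨x4, hx4, hx4a, hx4b, l2, hl2, n2, hn2, hP⟩ := T0 x3 hx3 hx3a (n1 + 1)
  have hx4n1 : x4 n1 = 0 := by rw [hx4b n1 (Nat.lt_succ_self n1), hx3n1]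
  have hn1l2 : n1 < l2 := hl2
  have hn12 : n1 < n2 := lt_of_lt_of_le hn1l2 hn2
  have hdl2 : (dc x4 l2 : ℤ) ≤ l2 := by exact_mod_cast dc_le x4 l2
  have hn2' : (l2 : ℤ) ≤ n2 := by exact_mod_cast hn2
  let x5 : ℕ → ℤ := fun j => if j < l2 then (if j = n1 then 1 else x4 j)
    else if j = n2 then (n2 : ℤ) + 2 - (dc x4 l2 : ℤ) else 1
  have hx5n1 : x5 n1 = 1 := by simp [x5, hn1l2]
  have hx5lt : ∀ j, j < l2 → j ≠ n1 → x5 j = x4 j := fun j hj hj' => by simp [x5, hj, hj']
  have hx5n2 : x5 n2 = (n2 : ℤ) + 2 - (dc x4 l2 : ℤ) := by simp [x5, not_lt.2 hn2]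
  have hx5ge : ∀ j, l2 ≤ j → x5 j ≠ 0 := by
    intro j hj
    have hj' := not_lt.2 hj
    by_cases h : j = n2
    · rw [h, hx5n2]
      intro hc
      linarith
    · simp [x5, hj', h]
  have hdc5 : dc x5 n2 + 1 = dc x4 l2 := by
    rw [dc_stable hn2 (fun j h1 _ => hx5ge j h1)]
    exact dc_update hn1l2 hx4n1 (by rw [hx5n1]; norm_num) (fun j hj hj' => hx5lt j hj hj')
  have hx5 : x5 ∈ C0 := by
    intro j
    by_cases hj : j < l2
    · by_cases hjn : j = n1
      · rw [hjn, hx5n1]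
        have e : (dc x5 n1 : ℤ) ≤ n1 := by exact_mod_cast dc_le x5 n1
        constructor <;> linarith
      · rw [hx5lt j hj hjn]
        have e : (dc x5 j : ℤ) ≤ dc x4 j := by
          have : dc x5 j ≤ dc x4 j := by
            apply dc_anti
            intro i hi h0
            by_cases hin : i = n1
            · rw [hin, hx4n1]
            · rw [← hx5lt i (lt_trans hi hj) hin]; exact h0
          exact_mod_cast this
        have h6 := hx4 j
        constructor
        · exact h6.1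
        · linarith [h6.2]
    · by_cases hjn : j = n2
      · have hdc5' : (dc x5 n2 : ℤ) + 1 = dc x4 l2 := by exact_mod_cast hdc5
        rw [hjn, hx5n2]
        constructor <;> linarith
      · have e : (dc x5 j : ℤ) ≤ j := by exact_mod_cast dc_le x5 j
        have hv : x5 j = 1 := by simp [x5, hj, hjn]
        rw [hv]
        constructor <;> linarith
  have hx5a : ∀ j, j < m' → x5 j = x1 j := fun j hj => by
    have hj1 : j < n1 := lt_of_lt_of_le hj (le_trans hl1 hn1)
    rw [hx5lt j (lt_trans hj1 hn1l2) (ne_of_lt hj1), hx4a j hj]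
  -- the window at `n1`
  have hw := hreg n1 (le_trans hNm (le_trans hl1 hn1)) n2 hn12.le (em e x5 + s)
    (leaf x5 hx5 hx5a n2)
    (fun j hj => by
      show x5 j • e j + s j = x1 j • e j + s j
      rw [hx5a j (lt_of_lt_of_le hj hlm)])
  obtain ⟨t, w, hw1, hw2, htw, ht3⟩ := hw
  have hwn1 : (em e x5 + s) n1 = e n1 + s n1 := by
    show x5 n1 • e n1 + s n1 = _
    rw [hx5n1, one_zsmul]
  rw [hwn1] at htw
  have hht : h n1 t = h n1 (s n1) + 1 - w := by
    have h1 := congrArg (h n1) htw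
    rw [map_add, map_add, map_zsmul, he, zsmul_eq_mul, mul_one] at h1
    linarith
  have hjx2 : ∀ j, j < l1 → x5 j = x2 j := by
    intro j hj
    have hj1 : j < n1 := lt_of_lt_of_le hj hn1
    rw [hx5lt j (lt_trans hj1 hn1l2) (ne_of_lt hj1), hx4b j (lt_trans hj1 (Nat.lt_succ_self n1)),
      hx3lt j hj]
  have h7 := hQ n2 hn12.le _ (ht3 ((n1 : ℤ) + 1) (by linarith [Int.natCast_nonneg n1]) le_rfl)
    (fun j hj => by
      have hj1 : j ≠ n1 := ne_of_lt (lt_of_lt_of_le hj hn1)
      rw [Function.update_of_ne hj1]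
      show x5 j • e j + s j = x2 j • e j + s j
      rw [hjx2 j hj])
  rw [Function.update_self, map_add, map_zsmul, he, zsmul_eq_mul, mul_one, hht] at h7
  have h8 : (0 : ℚ) ≤ (dc x2 l1 : ℚ) := Nat.cast_nonneg _
  push_cast at h7
  have hw1' : (1 : ℚ) ≤ w := by linarith
  have hw1'' : (1 : ℤ) ≤ w := by exact_mod_cast hw1'
  have hst : t + (w - 1) • e n1 = s n1 := by
    have h1 : t + (w - 1) • e n1 = (t + w • e n1) - e n1 := by
      rw [sub_zsmul, one_zsmul]
      abel
    rw [h1, ← htw, add_sub_cancel_left]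
  have h9 := hP n2 le_rfl _ (ht3 (w - 1) (by linarith) (by linarith))
    (fun j hj => by
      by_cases hjn : j = n1
      · subst hjn
        rw [Function.update_self, hst]
        show s j = x4 j • e j + s j
        rw [hx4n1, zero_zsmul, zero_add]
      · rw [Function.update_of_ne hjn]
        show x5 j • e j + s j = x4 j • e j + s j
        rw [hx5lt j hj hjn])
  rw [Function.update_of_ne (ne_of_gt hn12), hem, hx5n2] at h9
  push_cast at h9
  linarith

/-- Key lemma for the second witness. -/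
theorem key1 (F : Code H) (s : ∀ n, H n) (x0 : ℕ → ℤ) (m : ℕ) (hx0 : x0 ∈ C1)
    (Hy : ∀ x ∈ C1, (∀ j, j < m → x j = x0 j) → ∀ n, ∃ x' ∈ C1, (∀ j, j < n → x' j = x j) ∧
      Phi1 e F (em e x' + s)) : False := by
  have leaf : ∀ x ∈ C1, (∀ j, j < m → x j = x0 j) → ∀ n, R n (em e x + s) ∈ F n := by
    intro x hx h n
    obtain ⟨x', -, h1, h2, -⟩ := Hy x hx h (n + 1)
    rw [R_congr (z := em e x + s) (z' := em e x' + s) (fun j hj => by
      show x j • e j + s j = x' j • e j + s j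
      rw [h1 j hj])]
    exact h2 n
  obtain ⟨x1, hx1, hx1a, -, h2⟩ := Hy x0 hx0 (fun _ _ => rfl) m
  apply h2
  refine ⟨m, fun i hi n hn => ⟨s i, x1 i, (hx1 i).1, (hx1 i).2, ?_, fun v hv1 hv2 => ?_⟩⟩
  · show x1 i • e i + s i = _
    rw [add_comm]
  · have e1 : Function.update (em e x1 + s) i (s i + v • e i) =
        em e (Function.update x1 i v) + s := by
      funext j
      by_cases hj : j = i
      · subst hj
        rw [Function.update_self]
        show _ = (Function.update x1 j v) j • e j + s j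
        rw [Function.update_self, add_comm]
      · rw [Function.update_of_ne hj]
        show x1 j • e j + s j = (Function.update x1 i v) j • e j + s j
        rw [Function.update_of_ne hj]
    rw [e1]
    apply leaf
    · intro j
      by_cases hj : j = i
      · subst hj
        simp only [Function.update_self]
        constructor <;> linarith
      · rw [Function.update_of_ne hj]
        exact hx1 j
    · intro j hj
      rw [Function.update_of_ne (ne_of_lt (lt_of_lt_of_le hj hi)), hx1a j hj]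

end keys

end Pool.Agent.Y884.SHM
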