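import Pool.Agent.Y884.SHM.Union

/-!
Products of countable discrete abelian groups, infinitely many of which are not torsion groups.
-/

open Set Topology

namespace Pool.Agent.Y884.SHM

/-- `a` has infinite order. -/
def InfOrd {A : Type} [AddCommGroup A] (a : A) : Prop := ∀ k : ℕ, 0 < k → k • a ≠ 0

theorem zsmul_ne {A : Type} [AddCommGroup A] {a : A} (ha : InfOrd a) {k : ℤ} (hk : k ≠ 0) :
    k • a ≠ 0 := by
  intro h
  have h1 : (k.natAbs) • a = 0 := by
    rcases Int.natAbs_eq k with h2 | h2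
    · rw [h2, natCast_zsmul] at h
      exact h
    · rw [h2, neg_zsmul, natCast_zsmul, neg_eq_zero] at h
      exact h
  exact ha _ (Int.natAbs_pos.2 hk) h1

/-- a homomorphism to the rational numbers -/
theorem exists_hom {A : Type} [AddCommGroup A] {a : A} (ha : InfOrd a) :
    ∃ φ : A →+ ℚ, φ a = 1 := by
  have hinj : Function.Injective (zmultiplesHom A a) := by
    rw [injective_iff_map_eq_zero]
    intro k hk
    by_contra hk0
    exact zsmul_ne ha hk0 (by simpa using hk)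
  obtain ⟨φ, hφ⟩ := (Module.Baer.of_divisible ℚ).extension_property_addMonoidHom
    (zmultiplesHom A a) hinj (Int.castAddHom ℚ)
  refine ⟨φ, ?_⟩
  have := DFunLike.congr_fun hφ 1
  simpa using this

theorem neg_all (H : ℕ → Type) [∀ n, AddCommGroup (H n)] [∀ n, Countable (H n)]
    [∀ n, TopologicalSpace (H n)] [∀ n, DiscreteTopology (H n)]
    (hH : ∀ n, ∃ a : H n, InfOrd a) :
    ∃ A₀ A₁ : Set (∀ n, H n), @MeasurableSet (∀ n, H n) (borel (∀ n, H n)) A₀ ∧
      @MeasurableSet (∀ n, H n) (borel (∀ n, H n)) A₁ ∧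
      StronglyHaarMeager A₀ ∧ StronglyHaarMeager A₁ ∧ ¬ StronglyHaarMeager (A₀ ∪ A₁) := by
  choose e he using hH
  choose h hh using fun n => exists_hom (he n)
  exact ⟨A0 e h, A1 e h, A0_borel e h, A1_borel e h, A0_shm e h hh, A1_shm e h hh,
    union_not_shm e h hh⟩

theorem shm_preimage {G G' : Type} [AddCommGroup G] [TopologicalSpace G] [AddCommGroup G']
    [TopologicalSpace G'] (Φ : G ≃ₜ G') (hadd : ∀ x y, Φ (x + y) = Φ x + Φ y) {A : Set G'}
    (hA : StronglyHaarMeager A) : StronglyHaarMeager (Φ ⁻¹' A) := by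
  obtain ⟨B, hB, hAB, C, hC, hne, hm⟩ := hA
  refine ⟨Φ ⁻¹' B, ?_, preimage_mono hAB, Φ.symm '' C, hC.image Φ.symm.continuous,
    hne.image _, fun g => ?_⟩
  · exact @Continuous.borel_measurable G G' _ _ Φ Φ.continuous B hB
  · have h1 := hm (Φ g)
    let ψ : C ≃ₜ (Φ.symm '' C : Set G) := Φ.symm.image C
    have h2 := h1.preimage_of_isOpenMap ψ.symm.continuous ψ.symm.isOpenMap
    refine h2.mono ?_
    rintro c ⟨b, hb, hc⟩
    refine ⟨Φ b, hb, ?_⟩
    have h3 : ((ψ.symm c : C) : G') = Φ c.1 := by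
      have h4 : (ψ (ψ.symm c) : G) = c.1 := by rw [ψ.apply_symm_apply]
      have h5 : (ψ (ψ.symm c) : G) = Φ.symm (ψ.symm c : C).1 := rfl
      rw [← h4, h5, Φ.apply_symm_apply]
    rw [h3, hc, hadd]

/-- grouping the factors into blocks -/
def regroup (H : ℕ → Type) [∀ n, TopologicalSpace (H n)] (b : ℕ → ℕ) :
    (∀ n, H n) ≃ₜ (∀ k, ∀ j : {n // b n = k}, H j.1) where
  toFun x k j := x j.1
  invFun y n := y (b n) ⟨n, rfl⟩
  left_inv x := rfl
  right_inv y := by
    funext k j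
    obtain ⟨j, rfl⟩ := j
    rfl
  continuous_toFun := continuous_pi fun k => continuous_pi fun j => continuous_apply _
  continuous_invFun := continuous_pi fun n =>
    (continuous_apply (⟨n, rfl⟩ : {m // b m = b n})).comp (continuous_apply (b n))

theorem neg_inf (H : ℕ → Type) [∀ n, AddCommGroup (H n)] [∀ n, Countable (H n)]
    [∀ n, TopologicalSpace (H n)] [∀ n, DiscreteTopology (H n)]
    (hinf : {n | ∃ a : H n, InfOrd a}.Infinite) :
    ∃ A₀ A₁ : Set (∀ n, H n), @MeasurableSet (∀ n, H n) (borel (∀ n, H n)) A₀ ∧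
      @MeasurableSet (∀ n, H n) (borel (∀ n, H n)) A₁ ∧
      StronglyHaarMeager A₀ ∧ StronglyHaarMeager A₁ ∧ ¬ StronglyHaarMeager (A₀ ∪ A₁) := by
  classical
  let p : ℕ → Prop := fun n => ∃ a : H n, InfOrd a
  have hp : {n | p n}.Infinite := hinf
  let b : ℕ → ℕ := Nat.count p
  have hbn : ∀ k, b (Nat.nth p k) = k := fun k => Nat.count_nth_of_infinite hp k
  have hfin : ∀ k, Finite {n // b n = k} := by
    intro k
    refine Set.Finite.to_subtype ((Set.finite_Iic (Nat.nth p k)).subset ?_)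
    intro n hn
    have hn' : Nat.count p n = k := hn
    have h1 := Nat.le_nth_count hp n
    rw [hn'] at h1
    exact h1
  have hnt : ∀ k, ∃ a : (∀ j : {n // b n = k}, H j.1), InfOrd a := by
    intro k
    obtain ⟨a, ha⟩ : p (Nat.nth p k) := Nat.nth_mem_of_infinite hp k
    let j0 : {n // b n = k} := ⟨Nat.nth p k, hbn k⟩
    refine ⟨Pi.single (M := fun j : {n // b n = k} => H j.1) j0 a, fun m hm h0 => ha m hm ?_⟩
    have := congrFun h0 j0
    simpa using this
  obtain ⟨A₀, A₁, h1, h2, h3, h4, h5⟩ := neg_all (fun k => ∀ j : {n // b n = k}, H j.1) hnt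
  let Φ := regroup H b
  have hadd : ∀ x y, Φ (x + y) = Φ x + Φ y := fun x y => rfl
  have hadd' : ∀ x y, Φ.symm (x + y) = Φ.symm x + Φ.symm y := fun x y => rfl
  refine ⟨Φ ⁻¹' A₀, Φ ⁻¹' A₁, @Continuous.borel_measurable _ _ _ _ Φ Φ.continuous A₀ h1,
    @Continuous.borel_measurable _ _ _ _ Φ Φ.continuous A₁ h2, shm_preimage Φ hadd h3,
    shm_preimage Φ hadd h4, fun h6 => h5 ?_⟩
  rw [← preimage_union] at h6
  have h7 := shm_preimage Φ.symm hadd' h6
  rw [← preimage_comp] at h7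
  have h8 : Φ ∘ Φ.symm = id := by
    funext y
    exact Φ.apply_symm_apply y
  rwa [h8, preimage_id] at h7

end Pool.Agent.Y884.SHM
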