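import Pool.Agent.Y884.SHM.Pos

/-!
Locally compact subgroups of products of discrete abelian groups.
-/

open Set Topology

namespace Pool.Agent.Y884.SHM

variable (H : ℕ → Type) [∀ n, AddCommGroup (H n)] [∀ n, TopologicalSpace (H n)]
    [∀ n, DiscreteTopology (H n)]

theorem loc_of_fin (hfin : {n | ∃ a : H n, InfOrd a}.Finite) (K : Set (∀ n, H n))
    (hK : IsCompact K) : ∃ L : AddSubgroup (∀ n, H n), LocallyCompactSpace L ∧ K ⊆ L := by
  classical
  obtain ⟨N, hN⟩ : ∃ N, ∀ n, N ≤ n → ¬ ∃ a : H n, InfOrd a := by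
    obtain ⟨N, hN⟩ := hfin.bddAbove
    exact ⟨N + 1, fun n hn h => absurd (hN h) (by omega)⟩
  let F : ∀ n, AddSubgroup (H n) := fun n => AddSubgroup.closure ((fun x : ∀ n, H n => x n) '' K)
  have hF : ∀ n, N ≤ n → (F n : Set (H n)).Finite := fun n hn =>
    finite_closure (hN n hn) ((hK.image (continuous_apply n)).finite_of_discrete)
  let L : AddSubgroup (∀ n, H n) :=
    { carrier := {x | ∀ n, N ≤ n → x n ∈ F n}
      zero_mem' := fun n _ => (F n).zero_mem
      add_mem' := fun hx hy n hn => (F n).add_mem (hx n hn) (hy n hn)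
      neg_mem' := fun hx n hn => (F n).neg_mem (hx n hn) }
  refine ⟨L, ?_, fun x hx n _ => AddSubgroup.subset_closure ⟨x, hx, rfl⟩⟩
  -- a compact neighbourhood of zero
  let V : Set (∀ n, H n) := {x | ∀ n, x n ∈ if n < N then ({0} : Set (H n)) else F n}
  have hVc : IsCompact V := by
    have h1 : V = Set.pi univ fun n => if n < N then ({0} : Set (H n)) else F n := by
      ext x
      rw [Set.mem_univ_pi]
      exact Iff.rfl
    rw [h1]
    refine isCompact_univ_pi fun n => ?_
    by_cases hn : n < N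
    · rw [if_pos hn]
      exact isCompact_singleton
    · rw [if_neg hn]
      exact (hF n (not_lt.1 hn)).isCompact
  have hVL : V ⊆ L := by
    intro x hx n hn
    have := hx n
    rw [if_neg (not_lt.2 hn)] at this
    exact this
  have hVc' : IsCompact ((Subtype.val : L → ∀ n, H n) ⁻¹' V) := by
    rw [Subtype.isCompact_iff]
    have h3 : (Subtype.val : L → ∀ n, H n) '' (Subtype.val ⁻¹' V) = V := by
      ext x
      constructor
      · rintro ⟨y, hy, rfl⟩
        exact hy
      · intro hx
        exact ⟨⟨x, hVL hx⟩, hx, rfl⟩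
    rw [h3]
    exact hVc
  refine hVc'.locallyCompactSpace_of_mem_nhds_of_addGroup (x := 0) ?_
  have h2 : IsOpen {x : ∀ n, H n | ∀ j, j < N → x j = 0} :=
    isOpen_fin (fun x : ∀ n, H n => ∀ j, j < N → x j = 0) N
      (fun w w' h1 h2 j hj => by rw [h1 j hj, h2 j hj])
  refine Filter.mem_of_superset ((h2.preimage continuous_subtype_val).mem_nhds
    (show (0 : L) ∈ _ from fun j _ => rfl)) ?_
  intro x hx n
  by_cases hn : n < N
  · rw [if_pos hn]
    exact hx n hn
  · rw [if_neg hn]
    exact x.2 n (not_lt.1 hn)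

theorem fin_of_loc (h : ∀ K : Set (∀ n, H n), IsCompact K →
    ∃ L : AddSubgroup (∀ n, H n), LocallyCompactSpace L ∧ K ⊆ L) :
    {n | ∃ a : H n, InfOrd a}.Finite := by
  classical
  by_contra hinf
  have hinf' : {n | ∃ a : H n, InfOrd a}.Infinite := hinf
  let a : ∀ n, H n := fun n => if h : ∃ a : H n, InfOrd a then h.choose else 0
  have ha : ∀ n, (∃ a : H n, InfOrd a) → InfOrd (a n) := by
    intro n hn
    simp only [a, dif_pos hn]
    exact hn.choose_spec
  let K : Set (∀ n, H n) := {x | ∀ n, x n ∈ ({0, a n} : Set (H n))}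
  have hK : IsCompact K := by
    have h1 : K = Set.pi univ fun n => ({0, a n} : Set (H n)) := by
      ext x
      rw [Set.mem_univ_pi]
      exact Iff.rfl
    rw [h1]
    exact isCompact_univ_pi fun n => (Set.toFinite _).isCompact
  obtain ⟨L, hL, hKL⟩ := h K hK
  obtain ⟨V, hV, hV0⟩ := exists_compact_mem_nhds (0 : L)
  -- a basic neighbourhood
  obtain ⟨m, hm⟩ := exists_cyl (C := (L : Set (∀ n, H n))) (x0 := (0 : L)) hV0
  obtain ⟨n, hn, hmn⟩ := hinf'.exists_gt m
  have hmem : ∀ k : ℤ, k • (Pi.single n (a n) : ∀ n, H n) ∈ L := by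
    intro k
    refine L.zsmul_mem (hKL fun j => ?_) k
    by_cases hj : j = n
    · subst hj
      rw [Pi.single_eq_same]
      exact Or.inr rfl
    · rw [Pi.single_eq_of_ne hj]
      exact Or.inl rfl
  have hVk : ∀ k : ℤ, (⟨k • (Pi.single n (a n) : ∀ n, H n), hmem k⟩ : L) ∈ V := by
    intro k
    refine hm _ fun j hj => ?_
    show k • (Pi.single n (a n) : ∀ n, H n) j = 0
    rw [Pi.single_eq_of_ne (ne_of_lt (lt_trans hj hmn)), smul_zero]
  have hfin : ((fun x : L => (x : ∀ n, H n) n) '' V).Finite :=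
    (hV.image ((continuous_apply n).comp continuous_subtype_val)).finite_of_discrete
  have hinj : Function.Injective fun k : ℤ => k • a n := by
    intro k k' hkk
    by_contra hne
    have hkk' : k • a n = k' • a n := hkk
    refine zsmul_ne (ha n hn) (sub_ne_zero.2 hne) ?_
    rw [sub_zsmul, hkk', add_neg_cancel]
  refine Set.infinite_range_of_injective hinj (hfin.subset ?_)
  rintro _ ⟨k, rfl⟩
  refine ⟨_, hVk k, ?_⟩
  show k • (Pi.single n (a n) : ∀ n, H n) n = k • a n
  rw [Pi.single_eq_same]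

end Pool.Agent.Y884.SHM
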