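import Pool.Agent.Y884.SHM.Gen

/-!
The positive direction: if all but finitely many factors are torsion groups, countable unions of
Haar meager sets are strongly Haar meager. Category lemmas.
-/

open Set Topology

namespace Pool.Agent.Y884.SHM

/-- A Borel set which is not meager is comeager in a nonempty open set: there are a nonempty open
set `U` and countably many closed nowhere dense sets which cover `U \ B`. -/
theorem bp {D : Type} [TopologicalSpace D] {B : Set D} (hB : @MeasurableSet D (borel D) B)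
    (hn : ¬ IsMeagre B) : ∃ (U : Set D) (S : Set (Set D)), IsOpen U ∧ U.Nonempty ∧ S.Countable ∧
      (∀ t ∈ S, IsClosed t ∧ interior t = ∅) ∧ U ⊆ B ∪ ⋃₀ S := by
  let _ : MeasurableSpace D := borel _
  have _ : BorelSpace D := ⟨rfl⟩
  obtain ⟨U, hU, hBU⟩ := MeasurableSet.residualEq_isOpen hB
  have hN : IsMeagre {x | ¬ (x ∈ B ↔ x ∈ U)} := by
    have h1 : {x | x ∈ B ↔ x ∈ U} ∈ residual D := by
      filter_upwards [hBU] with x hx
      exact Eq.to_iff hx
    rw [IsMeagre]
    convert h1 using 1
    ext x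
    simp
  obtain ⟨S, hS1, hS2, hS3⟩ := isMeagre_iff_countable_union_isNowhereDense.1 hN
  refine ⟨U, closure '' S, hU, ?_, hS2.image _, ?_, ?_⟩
  · by_contra hem
    rw [not_nonempty_iff_eq_empty] at hem
    refine hn (hN.mono fun x hx => ?_)
    show ¬ (x ∈ B ↔ x ∈ U)
    rw [hem]
    simp [hx]
  · rintro _ ⟨t, ht, rfl⟩
    exact ⟨isClosed_closure, hS1 t ht⟩
  · intro x hx
    by_cases hxB : x ∈ B
    · exact Or.inl hxB
    · right
      obtain ⟨t, ht, hxt⟩ := hS3 (show ¬ (x ∈ B ↔ x ∈ U) by simp [hx, hxB])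
      exact ⟨closure t, ⟨t, ht, rfl⟩, subset_closure hxt⟩

/-- Translates: if all translates of `f` meet `B` in a meager set, then `B` is meager. -/
theorem core {D X : Type} [AddCommGroup D] [TopologicalSpace D] [IsTopologicalAddGroup D]
    [BaireSpace D] [TopologicalSpace X] [BaireSpace X] [Nonempty X] [SecondCountableTopology X]
    (f : X → D) (hf : Continuous f) (B : Set D) (hB : @MeasurableSet D (borel D) B)
    (h : ∀ d, IsMeagre {x | f x + d ∈ B}) : IsMeagre B := by
  by_contra hn
  obtain ⟨U, S, hU, ⟨u, hu⟩, hS, hSt, hUS⟩ := bp hB hn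
  let bs := TopologicalSpace.countableBasis X
  have hbs := TopologicalSpace.isBasis_countableBasis X
  let M : Set D := ⋃ t ∈ S, ⋃ V ∈ bs, {d | ∀ x ∈ V, f x + d ∈ t}
  have hM : IsMeagre M := by
    refine isMeagre_biUnion hS fun t ht => ?_
    refine isMeagre_biUnion (TopologicalSpace.countable_countableBasis X) fun V hV => ?_
    obtain ⟨x0, hx0⟩ := TopologicalSpace.nonempty_of_mem_countableBasis hV
    have hcl : IsClosed {d | ∀ x ∈ V, f x + d ∈ t} := by
      have : {d | ∀ x ∈ V, f x + d ∈ t} = ⋂ x ∈ V, (fun d => f x + d) ⁻¹' t := by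
        ext d
        simp
      rw [this]
      exact isClosed_biInter fun x _ => (hSt t ht).1.preimage (continuous_const.add continuous_id)
    refine (hcl.isNowhereDense_iff.2 ?_).isMeagre
    have h1 : interior {d | ∀ x ∈ V, f x + d ∈ t} ⊆
        interior ((Homeomorph.addLeft (f x0)) ⁻¹' t) :=
      interior_mono fun d hd => hd x0 hx0
    rw [← Homeomorph.preimage_interior, (hSt t ht).2, preimage_empty] at h1
    exact subset_empty_iff.1 h1
  obtain ⟨x0⟩ := (inferInstance : Nonempty X)
  let W : Set D := {d | f x0 + d ∈ U}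
  have hW : IsOpen W := hU.preimage (continuous_const.add continuous_id)
  have hWne : W.Nonempty := ⟨u - f x0, by
    show f x0 + (u - f x0) ∈ U
    rw [add_sub_cancel]
    exact hu⟩
  have : ∃ d ∈ W, d ∉ M := by
    by_contra hcon
    push Not at hcon
    exact not_isMeagre_of_isOpen hW hWne (hM.mono hcon)
  obtain ⟨d, hdW, hdM⟩ := this
  let O : Set X := {x | f x + d ∈ U}
  have hO : IsOpen O := hU.preimage (hf.add continuous_const)
  refine not_isMeagre_of_isOpen hO ⟨x0, hdW⟩ (((h d).union
    (isMeagre_biUnion hS (f := fun t : Set D => {x | f x + d ∈ t}) fun t ht => ?_)).mono fun x hx => ?_)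
  · have hcl : IsClosed {x | f x + d ∈ t} := (hSt t ht).1.preimage (hf.add continuous_const)
    refine (hcl.isNowhereDense_iff.2 ?_).isMeagre
    by_contra hne
    obtain ⟨y, hy⟩ := nonempty_iff_ne_empty.2 hne
    obtain ⟨V, hV, hyV, hVs⟩ := hbs.exists_subset_of_mem_open hy isOpen_interior
    refine hdM ?_
    simp only [M, mem_iUnion]
    exact ⟨t, ht, V, hV, fun x hx => interior_subset (s := {x | f x + d ∈ t}) (hVs hx)⟩
  · rcases hUS hx with h1 | ⟨t, ht, h1⟩
    · exact Or.inl h1
    · right
      simp only [mem_iUnion]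
      exact ⟨t, ht, h1⟩

/-- A Borel set in a product with meager horizontal sections is meager. -/
theorem ku {X Y : Type} [TopologicalSpace X] [TopologicalSpace Y] [BaireSpace X] [BaireSpace Y]
    [SecondCountableTopology X] (P : Set (X × Y)) (hP : @MeasurableSet (X × Y) (borel (X × Y)) P)
    (h : ∀ y, IsMeagre {x | (x, y) ∈ P}) : IsMeagre P := by
  by_contra hn
  obtain ⟨U, S, hU, ⟨⟨x0, y0⟩, hu⟩, hS, hSt, hUS⟩ := bp hP hn
  obtain ⟨V, W, hV, hW, hx0, hy0, hVW⟩ := isOpen_prod_iff.1 hU x0 y0 hu
  let bs := TopologicalSpace.countableBasis X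
  have hbs := TopologicalSpace.isBasis_countableBasis X
  let M : Set Y := ⋃ t ∈ S, ⋃ V ∈ bs, {y | ∀ x ∈ V, (x, y) ∈ t}
  have hM : IsMeagre M := by
    refine isMeagre_biUnion hS fun t ht => ?_
    refine isMeagre_biUnion (TopologicalSpace.countable_countableBasis X) fun V' hV' => ?_
    have hV'o : IsOpen V' := hbs.isOpen hV'
    obtain ⟨x1, hx1⟩ := TopologicalSpace.nonempty_of_mem_countableBasis hV'
    have hcl : IsClosed {y | ∀ x ∈ V', (x, y) ∈ t} := by
      have : {y | ∀ x ∈ V', (x, y) ∈ t} = ⋂ x ∈ V', (fun y => (x, y)) ⁻¹' t := by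
        ext d
        simp
      rw [this]
      exact isClosed_biInter fun x _ => (hSt t ht).1.preimage (Continuous.prodMk_right x)
    refine (hcl.isNowhereDense_iff.2 ?_).isMeagre
    by_contra hne
    obtain ⟨y1, hy1⟩ := nonempty_iff_ne_empty.2 hne
    have h1 : V' ×ˢ interior {y | ∀ x ∈ V', (x, y) ∈ t} ⊆ interior t :=
      interior_maximal (fun q hq => interior_subset hq.2 q.1 hq.1) (hV'o.prod isOpen_interior)
    rw [(hSt t ht).2] at h1
    exact h1 (⟨hx1, hy1⟩ : (x1, y1) ∈ V' ×ˢ interior {y | ∀ x ∈ V', (x, y) ∈ t})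
  have : ∃ y ∈ W, y ∉ M := by
    by_contra hcon
    push Not at hcon
    exact not_isMeagre_of_isOpen hW ⟨y0, hy0⟩ (hM.mono hcon)
  obtain ⟨y, hyW, hyM⟩ := this
  refine not_isMeagre_of_isOpen hV ⟨x0, hx0⟩ (((h y).union
    (isMeagre_biUnion hS (f := fun t : Set (X × Y) => {x | (x, y) ∈ t}) fun t ht => ?_)).mono fun x hx => ?_)
  · have hcl : IsClosed {x | (x, y) ∈ t} := (hSt t ht).1.preimage (Continuous.prodMk_left y)
    refine (hcl.isNowhereDense_iff.2 ?_).isMeagre
    by_contra hne
    obtain ⟨z, hz⟩ := nonempty_iff_ne_empty.2 hne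
    obtain ⟨V', hV', hyV, hVs⟩ := hbs.exists_subset_of_mem_open hz isOpen_interior
    refine hyM ?_
    simp only [M, mem_iUnion]
    exact ⟨t, ht, V', hV', fun x hx => interior_subset (s := {x | (x, y) ∈ t}) (hVs hx)⟩
  · rcases hUS (hVW ⟨hx, hyW⟩ : (x, y) ∈ U) with h1 | ⟨t, ht, h1⟩
    · exact Or.inl h1
    · right
      simp only [mem_iUnion]
      exact ⟨t, ht, h1⟩

/-- `A` is Haar meager: there are a Borel set `B ⊇ A`, a nonempty compact metric space `K` and a
continuous map `f : K → G` such that `f⁻¹ (B + g)` is meager in `K` for every `g`. -/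
def HaarMeager {G : Type} [TopologicalSpace G] [AddCommGroup G] (A : Set G) : Prop :=
  ∃ B : Set G, @MeasurableSet G (borel G) B ∧ A ⊆ B ∧
    ∃ (K : Type) (_ : MetricSpace K) (_ : CompactSpace K) (_ : Nonempty K) (f : K → G),
      Continuous f ∧ ∀ g : G, IsMeagre {x : K | ∃ b ∈ B, f x = b + g}

theorem finite_closure {A : Type} [AddCommGroup A] (hA : ¬ ∃ a : A, InfOrd a) {s : Set A}
    (hs : s.Finite) : (AddSubgroup.closure s : Set A).Finite := by
  have _ : Finite s := hs
  have h1 : IsAddTorsion A := by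
    intro a
    rw [isOfFinAddOrder_iff_nsmul_eq_zero]
    by_contra hc
    push Not at hc
    exact hA ⟨a, fun k hk => hc k hk⟩
  have h2 : IsAddTorsion (AddSubgroup.closure s) := h1.addSubgroup _
  have h3 : Finite (AddSubgroup.closure s) := AddCommGroup.finite_of_fg_isAddTorsion _ h2
  exact h3

theorem pos (H : ℕ → Type) [∀ n, AddCommGroup (H n)] [∀ n, TopologicalSpace (H n)]
    [∀ n, DiscreteTopology (H n)] (hfin : {n | ∃ a : H n, InfOrd a}.Finite)
    (A : ℕ → Set (∀ n, H n)) (hA : ∀ k, HaarMeager (A k)) :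
    StronglyHaarMeager (⋃ k, A k) := by
  classical
  obtain ⟨N, hN⟩ : ∃ N, ∀ n, N ≤ n → ¬ ∃ a : H n, InfOrd a := by
    obtain ⟨N, hN⟩ := hfin.bddAbove
    exact ⟨N + 1, fun n hn h => absurd (hN h) (by omega)⟩
  choose B hB hAB K mK cK nK f hf hm using hA
  -- the finite subgroups
  let E : ∀ n, AddSubgroup (H n) := fun n => if n < N then ⊥ else
    AddSubgroup.closure (⋃ k ∈ Finset.range (n + 1), range (fun x : K k => f k x n))
  have hEfin : ∀ n, (E n : Set (H n)).Finite := by
    intro n
    by_cases hn : n < N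
    · have : E n = ⊥ := by simp only [E, if_pos hn]
      rw [this, AddSubgroup.coe_bot]
      exact finite_singleton 0
    · have : E n = AddSubgroup.closure
          (⋃ k ∈ Finset.range (n + 1), range (fun x : K k => f k x n)) := by
        simp only [E, if_neg hn]
      rw [this]
      refine finite_closure (hN n (not_lt.1 hn)) (Set.Finite.biUnion (Finset.finite_toSet _) ?_)
      intro k _
      have _ := cK k
      exact (isCompact_range ((continuous_apply n).comp (hf k))).finite_of_discrete
  have hEmem : ∀ (k n : ℕ) (x : K k), k ≤ n → N ≤ n → f k x n ∈ E n := by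
    intro k n x hkn hNn
    have : E n = AddSubgroup.closure
        (⋃ k ∈ Finset.range (n + 1), range (fun x : K k => f k x n)) := by
      simp only [E, if_neg (not_lt.2 hNn)]
    rw [this]
    refine AddSubgroup.subset_closure ?_
    simp only [mem_iUnion]
    exact ⟨k, Finset.mem_range.2 (Nat.lt_succ_of_le hkn), x, rfl⟩
  let C : AddSubgroup (∀ n, H n) :=
    { carrier := {x | ∀ n, x n ∈ E n}
      zero_mem' := fun n => (E n).zero_mem
      add_mem' := fun hx hy n => (E n).add_mem (hx n) (hy n)
      neg_mem' := fun hx n => (E n).neg_mem (hx n) }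
  have hCmem : ∀ x, x ∈ C ↔ ∀ n, x n ∈ E n := fun x => Iff.rfl
  have hCc : IsCompact (C : Set (∀ n, H n)) := by
    have h1 : (C : Set (∀ n, H n)) = Set.pi univ fun n => (E n : Set (H n)) := by
      ext x
      rw [Set.mem_univ_pi]
      exact Iff.rfl
    rw [h1]
    exact isCompact_univ_pi fun n => (hEfin n).isCompact
  have hCS : CompactSpace C := isCompact_iff_compactSpace.1 hCc
  have hk : ∀ (k : ℕ) (g : ∀ n, H n), IsMeagre {c : C | (c : ∀ n, H n) - g ∈ B k} := by
    intro k g
    let _ := mK k
    have _ := cK k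
    obtain ⟨x0⟩ := nK k
    let M : ℕ := max k N
    have hP : ∀ w w' : ∀ n, H n, (∀ j, j < M → w' j = w j) → (∀ i, i < M → w i = f k x0 i) →
        ∀ i, i < M → w' i = f k x0 i := fun w w' h1 h2 i hi => by rw [h1 i hi, h2 i hi]
    let X : Set (K k) := {x | ∀ i, i < M → f k x i = f k x0 i}
    have hXo : IsOpen X := (isOpen_fin (H := H) (fun w => ∀ i, i < M → w i = f k x0 i) M
      hP).preimage (hf k)
    have hXc : IsClosed X := (isClosed_fin (H := H) (fun w => ∀ i, i < M → w i = f k x0 i) M
      hP).preimage (hf k)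
    have _ : CompactSpace X := isCompact_iff_compactSpace.1 hXc.isCompact
    have _ : Nonempty X := ⟨⟨x0, fun _ _ => rfl⟩⟩
    let F : X → C := fun x => ⟨fun n => if n < M then 0 else f k x.1 n, fun n => by
      by_cases hn : n < M
      · simp only [hn, if_true]
        exact (E n).zero_mem
      · simp only [hn, if_false]
        exact hEmem k n x.1 (le_trans (le_max_left _ _) (not_lt.1 hn))
          (le_trans (le_max_right _ _) (not_lt.1 hn))⟩
    have hF : Continuous F := by
      refine Continuous.subtype_mk (continuous_pi fun n => ?_) _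
      by_cases hn : n < M
      · simp only [hn, if_true]
        exact continuous_const
      · simp only [hn, if_false]
        exact (continuous_apply n).comp ((hf k).comp continuous_subtype_val)
    refine core F hF _ ?_ fun d => ?_
    · have h1 : Continuous fun c : C => (c : ∀ n, H n) - g :=
        continuous_subtype_val.sub continuous_const
      exact @Continuous.borel_measurable _ _ _ _ _ h1 (B k) (hB k)
    · let p : ∀ n, H n := fun n => if n < M then f k x0 n else 0
      have h2 := (hm k (p - d + g)).preimage_of_isOpenMap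
        (continuous_subtype_val (p := fun x => x ∈ X)) hXo.isOpenMap_subtype_val
      refine h2.mono fun x hx => ?_
      refine ⟨((F x + d : C) : ∀ n, H n) - g, hx, ?_⟩
      funext n
      have h3 : (((F x + d : C) : ∀ n, H n) - g + (p - d + g)) n = (F x : ∀ n, H n) n + p n := by
        simp only [AddSubgroup.coe_add, Pi.add_apply, Pi.sub_apply]
        abel
      rw [h3]
      by_cases hn : n < M
      · have h4 : (F x : ∀ n, H n) n = 0 := by simp only [F, hn, if_true]
        have h5 : p n = f k x0 n := by simp only [p, hn, if_true]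
        rw [h4, h5, zero_add]
        exact x.2 n hn
      · have h4 : (F x : ∀ n, H n) n = f k x.1 n := by simp only [F, hn, if_false]
        have h5 : p n = 0 := by simp only [p, hn, if_false]
        rw [h4, h5, add_zero]
  refine ⟨⋃ k, B k, ?_, iUnion_mono hAB, C, hCc, ⟨0, C.zero_mem⟩, fun g => ?_⟩
  · exact @MeasurableSet.iUnion _ _ (borel _) _ _ hB
  · refine IsMeagre.mono ?_ (isMeagre_iUnion fun k => hk k g)
    rintro c ⟨b, hb, hc⟩
    obtain ⟨k, hkb⟩ := mem_iUnion.1 hb
    refine mem_iUnion.2 ⟨k, ?_⟩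
    show (c : ∀ n, H n) - g ∈ B k
    rw [hc, add_sub_cancel_right]
    exact hkb

/-- Strongly Haar meager sets are Haar meager. -/
theorem shm_hm {H : ℕ → Type} [∀ n, AddCommGroup (H n)]
    [∀ n, TopologicalSpace (H n)] [∀ n, DiscreteTopology (H n)] {A : Set (∀ n, H n)}
    (hA : StronglyHaarMeager A) : HaarMeager A := by
  obtain ⟨B, hB, hAB, C, hC, hne, hm⟩ := hA
  have h1 : CompactSpace C := isCompact_iff_compactSpace.1 hC
  have h2 : Nonempty C := hne.to_subtype
  let m : MetricSpace C := TopologicalSpace.metrizableSpaceMetric C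
  exact ⟨B, hB, hAB, C, m, h1, h2, Subtype.val, continuous_subtype_val, hm⟩

/-- The union of two strongly Haar meager sets is Haar meager. -/
theorem union_hm {H : ℕ → Type} [∀ n, AddCommGroup (H n)]
    [∀ n, TopologicalSpace (H n)] [∀ n, DiscreteTopology (H n)] {A A' : Set (∀ n, H n)}
    (hA : StronglyHaarMeager A) (hA' : StronglyHaarMeager A') : HaarMeager (A ∪ A') := by
  obtain ⟨B, hB, hAB, C, hC, hne, hm⟩ := hA
  obtain ⟨B', hB', hAB', C', hC', hne', hm'⟩ := hA'
  have h1 : CompactSpace C := isCompact_iff_compactSpace.1 hC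
  have h2 : Nonempty C := hne.to_subtype
  have h1' : CompactSpace C' := isCompact_iff_compactSpace.1 hC'
  have h2' : Nonempty C' := hne'.to_subtype
  let m : MetricSpace C := TopologicalSpace.metrizableSpaceMetric C
  let m' : MetricSpace C' := TopologicalSpace.metrizableSpaceMetric C'
  have hf : Continuous fun q : C × C' => (q.1 : ∀ n, H n) + (q.2 : ∀ n, H n) :=
    (continuous_subtype_val.comp continuous_fst).add (continuous_subtype_val.comp continuous_snd)
  refine ⟨B ∪ B', @MeasurableSet.union _ (borel _) _ _ hB hB', union_subset_union hAB hAB',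
    C × C', inferInstance, inferInstance, inferInstance,
    fun q => (q.1 : ∀ n, H n) + (q.2 : ∀ n, H n), hf, fun g => ?_⟩
  have k1 : IsMeagre {q : C × C' | (q.1 : ∀ n, H n) + (q.2 : ∀ n, H n) - g ∈ B} := by
    refine ku _ ?_ fun y => ?_
    · exact @Continuous.borel_measurable _ _ _ _ _ (hf.sub continuous_const) B hB
    · refine (hm (g - y)).mono ?_
      intro x hx
      refine ⟨(x : ∀ n, H n) + (y : ∀ n, H n) - g, hx, ?_⟩
      abel
  have k2 : IsMeagre {q : C' × C | (q.2 : ∀ n, H n) + (q.1 : ∀ n, H n) - g ∈ B'} := by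
    have hf' : Continuous fun q : C' × C => (q.2 : ∀ n, H n) + (q.1 : ∀ n, H n) - g :=
      ((continuous_subtype_val.comp continuous_snd).add
        (continuous_subtype_val.comp continuous_fst)).sub continuous_const
    refine ku _ ?_ fun y => ?_
    · exact @Continuous.borel_measurable _ _ _ _ _ hf' B' hB'
    · refine (hm' (g - y)).mono ?_
      intro x hx
      refine ⟨(y : ∀ n, H n) + (x : ∀ n, H n) - g, hx, ?_⟩
      abel
  have k3 := k2.preimage_of_isOpenMap (Homeomorph.prodComm C C').continuous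
    (Homeomorph.prodComm C C').isOpenMap
  refine (k1.union k3).mono ?_
  rintro q ⟨b, hb | hb, hq⟩
  · left
    show (q.1 : ∀ n, H n) + (q.2 : ∀ n, H n) - g ∈ B
    have hq' : (q.1 : ∀ n, H n) + (q.2 : ∀ n, H n) = b + g := hq
    rw [hq', add_sub_cancel_right]
    exact hb
  · right
    show (q.1 : ∀ n, H n) + (q.2 : ∀ n, H n) - g ∈ B'
    have hq' : (q.1 : ∀ n, H n) + (q.2 : ∀ n, H n) = b + g := hq
    rw [hq', add_sub_cancel_right]
    exact hb

end Pool.Agent.Y884.SHM
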