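import Pool.Agent.Y884.SHM.Comb

/-!
Topological part: the two Borel sets and their witnesses (products of countable discrete abelian
groups).
-/

open Set Topology

namespace Pool.Agent.Y884.SHM

/-- `A` is strongly Haar meager: there are a Borel set `B ⊇ A` and a nonempty compact set `C`
such that `(B + g) ∩ C` is meager in `C` for every `g`. -/
def StronglyHaarMeager {G : Type*} [TopologicalSpace G] [AddCommGroup G] (A : Set G) : Prop :=
  ∃ B : Set G, @MeasurableSet G (borel G) B ∧ A ⊆ B ∧ ∃ C : Set G, IsCompact C ∧ C.Nonempty ∧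
    ∀ g : G, IsMeagre {c : C | ∃ b ∈ B, (c : G) = b + g}

section top

variable {H : ℕ → Type} [∀ n, TopologicalSpace (H n)] [∀ n, DiscreteTopology (H n)]

theorem exists_cyl {C : Set (∀ n, H n)} {U : Set C} {x0 : C} (hU : U ∈ 𝓝 x0) :
    ∃ m : ℕ, ∀ x : C, (∀ j, j < m → x.1 j = x0.1 j) → x ∈ U := by
  rw [nhds_subtype_eq_comap, Filter.mem_comap] at hU
  obtain ⟨V, hV, hVU⟩ := hU
  obtain ⟨t, ⟨x, n, rfl⟩, h1, h2⟩ :=
    (PiNat.isTopologicalBasis_cylinders H).mem_nhds_iff.1 hV
  refine ⟨n, fun y hy => hVU (h2 ?_)⟩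
  rw [PiNat.mem_cylinder_iff] at h1 ⊢
  intro i hi
  rw [hy i hi, h1 i hi]

theorem isOpen_cyl (C : Set (∀ n, H n)) (x0 : ∀ n, H n) (m : ℕ) :
    IsOpen {x : C | ∀ j, j < m → x.1 j = x0 j} := by
  have h := (PiNat.isOpen_cylinder H x0 m).preimage
    (continuous_subtype_val (p := fun x => x ∈ C))
  exact h

theorem isOpen_fin (P : (∀ n, H n) → Prop) (M : ℕ)
    (h : ∀ w w' : ∀ n, H n, (∀ j, j < M → w' j = w j) → P w → P w') : IsOpen {w | P w} := by
  rw [isOpen_iff_mem_nhds]
  intro w hw
  have h1 := (PiNat.isOpen_cylinder H w M).mem_nhds (PiNat.self_mem_cylinder w M)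
  refine Filter.mem_of_superset h1 (fun w' hw' => ?_)
  rw [PiNat.mem_cylinder_iff] at hw'
  exact h w w' hw' hw

theorem isClosed_fin (P : (∀ n, H n) → Prop) (M : ℕ)
    (h : ∀ w w' : ∀ n, H n, (∀ j, j < M → w' j = w j) → P w → P w') : IsClosed {w | P w} := by
  rw [← isOpen_compl_iff]
  refine isOpen_fin (fun w => ¬ P w) M (fun w w' hw hP hP' => hP ?_)
  exact h w' w (fun j hj => (hw j hj).symm) hP'

theorem mem_closure_cyl {C : Set (∀ n, H n)} {Z : Set C} {x : C} (h : x ∈ closure Z) (n : ℕ) :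
    ∃ x' ∈ Z, ∀ j, j < n → x'.1 j = x.1 j := by
  rw [mem_closure_iff] at h
  obtain ⟨y, hy, hyZ⟩ := h _ (isOpen_cyl C x.1 n) (fun _ _ => rfl)
  exact ⟨y, hyZ, hy⟩

theorem nwd_of (C : Set (∀ n, H n)) (Z : Set C)
    (h : ∀ (x0 : C) (m : ℕ), ¬ ∀ x : C, (∀ j, j < m → x.1 j = x0.1 j) →
      ∀ n, ∃ x' ∈ Z, ∀ j, j < n → x'.1 j = x.1 j) : IsNowhereDense Z := by
  rw [IsNowhereDense, Set.eq_empty_iff_forall_notMem]
  intro x0 hx0
  obtain ⟨m, hm⟩ := exists_cyl (mem_interior_iff_mem_nhds.1 hx0)
  exact h x0 m (fun x hx n => mem_closure_cyl (hm x hx) n)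

theorem meas_fin [MeasurableSpace (∀ n, H n)] [BorelSpace (∀ n, H n)]
    (P : (∀ n, H n) → Prop) (M : ℕ)
    (h : ∀ w w' : ∀ n, H n, (∀ j, j < M → w' j = w j) → P w → P w') : Measurable P :=
  measurableSet_setOfPred.1 (isOpen_fin P M h).measurableSet

end top

/-! ### Coding -/

theorem exists_sep (S : Type) [Countable S] (r : S → ℕ) (p : ℕ) :
    ∃ G : S → ℤ, ∀ a b, a ≠ b → (p : ℤ) + r a + r b < |G a - G b| := by
  classical
  obtain ⟨f, hf⟩ := exists_injective_nat S
  let q : ℕ → ℕ := fun k => if h : ∃ a, f a = k then r h.choose else 0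
  have hq : ∀ a, q (f a) = r a := by
    intro a
    have h : ∃ b, f b = f a := ⟨a, rfl⟩
    have e : q (f a) = r h.choose := dif_pos h
    rw [e, hf h.choose_spec]
  let T : ℕ → ℕ := fun k => ∑ i ∈ Finset.range k, (p + 1 + 2 * q i)
  have hT : ∀ j k, j < k → T j + (p + 1 + 2 * q j) ≤ T k := by
    intro j k hjk
    have e : T (j + 1) = T j + (p + 1 + 2 * q j) := Finset.sum_range_succ _ _
    rw [← e]
    exact Finset.sum_le_sum_of_subset (Finset.range_subset_range.2 hjk)
  have key : ∀ a b, f a < f b → (p : ℤ) + r a + r b <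
      ((T (f b) : ℤ) + q (f b)) - ((T (f a) : ℤ) + q (f a)) := by
    intro a b hab
    have h1 : (T (f a) : ℤ) + (p + 1 + 2 * q (f a)) ≤ T (f b) := by
      exact_mod_cast hT _ _ hab
    rw [hq a] at h1
    rw [hq a, hq b]
    linarith
  refine ⟨fun a => (T (f a) : ℤ) + q (f a), fun a b hab => ?_⟩
  rcases lt_trichotomy (f a) (f b) with h | h | h
  · rw [abs_sub_comm]
    exact lt_of_lt_of_le (key a b h) (le_abs_self _)
  · exact absurd (hf h) hab
  · have := key b a h
    refine lt_of_lt_of_le ?_ (le_abs_self _)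
    linarith

section coding

variable {H : ℕ → Type} [∀ n, AddCommGroup (H n)] [∀ n, Countable (H n)]
  (e : ∀ n, H n) (h : ∀ n, H n →+ ℚ)

noncomputable def rr (n : ℕ) (F : Finset (∀ i : Fin (n + 1), H i)) : ℕ :=
  F.sup (fun ζ => ⌈|h n (ζ (Fin.last n))|⌉₊)

omit [∀ n, Countable (H n)] in
theorem rr_le {n : ℕ} {F : Finset (∀ i : Fin (n + 1), H i)} {z : ∀ n, H n} (hz : R n z ∈ F) :
    |h n (z n)| ≤ (rr h n F : ℚ) := by
  have h1 : (fun ζ : ∀ i : Fin (n + 1), H i => ⌈|h n (ζ (Fin.last n))|⌉₊) (R n z) ≤ rr h n F :=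
    Finset.le_sup (f := fun ζ : ∀ i : Fin (n + 1), H i => ⌈|h n (ζ (Fin.last n))|⌉₊) hz
  have h2 : ⌈|h n (z n)|⌉₊ ≤ rr h n F := h1
  exact (Nat.le_ceil _).trans (by exact_mod_cast h2)

noncomputable def GG (n : ℕ) : Finset (∀ i : Fin (n + 1), H i) → ℤ :=
  Classical.choose (exists_sep (Finset (∀ i : Fin (n + 1), H i)) (rr h n) (n + 1))

theorem GG_sep (n : ℕ) (a b : Finset (∀ i : Fin (n + 1), H i)) (hab : a ≠ b) :
    ((n : ℚ) + 1) + rr h n a + rr h n b < |(GG h n a : ℚ) - GG h n b| := by
  have := Classical.choose_spec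
    (exists_sep (Finset (∀ i : Fin (n + 1), H i)) (rr h n) (n + 1)) a b hab
  push_cast at this
  have h2 : ((n : ℤ) + 1) + rr h n a + rr h n b < |GG h n a - GG h n b| := this
  exact_mod_cast h2

open Classical in
noncomputable def dF (n : ℕ) (a : H n) : Finset (∀ i : Fin (n + 1), H i) :=
  if hF : ∃ F, |h n a - GG h n F| ≤ rr h n F then hF.choose else ∅

theorem dF_eq {n : ℕ} {a : H n} {F : Finset (∀ i : Fin (n + 1), H i)}
    (ha : |h n a - GG h n F| ≤ rr h n F) : dF h n a = F := by
  have hex : ∃ F, |h n a - GG h n F| ≤ rr h n F := ⟨F, ha⟩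
  have e : dF h n a = hex.choose := by
    unfold dF
    rw [dif_pos hex]
  rw [e]
  have h2 := hex.choose_spec
  by_contra hne
  have h3 := GG_sep h n _ _ hne
  have h4 : |(GG h n hex.choose : ℚ) - GG h n F| ≤
      |h n a - GG h n hex.choose| + |h n a - GG h n F| := by
    have e : (GG h n hex.choose : ℚ) - GG h n F =
        (h n a - GG h n F) - (h n a - GG h n hex.choose) := by ring
    rw [e]
    have := abs_sub (h n a - GG h n F) (h n a - GG h n hex.choose)
    linarith
  have h5 : (0 : ℚ) ≤ n := Nat.cast_nonneg n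
  linarith

def Valid (w : ∀ n, H n) : Prop :=
  ∀ n, |h n (w n) - GG h n (dF h n (w n))| ≤ rr h n (dF h n (w n))

noncomputable def cd (w : ∀ n, H n) : Code H := fun n => dF h n (w n)

noncomputable def yy (w : ∀ n, H n) : ∀ n, H n := fun n => w n - GG h n (dF h n (w n)) • e n

def A0 : Set (∀ n, H n) := {w | Valid h w ∧ Phi0 e h (cd h w) (yy e h w)}

def A1 : Set (∀ n, H n) := {w | Valid h w ∧ Phi1 e (cd h w) (yy e h w)}

/-! ### Measurability -/

theorem cd_congr {w w' : ∀ n, H n} {n : ℕ} (hw : w' n = w n) : cd h w' n = cd h w n := by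
  unfold cd; rw [hw]

theorem yy_congr {w w' : ∀ n, H n} {n : ℕ} (hw : w' n = w n) : yy e h w' n = yy e h w n := by
  unfold yy; rw [hw]

section meas

variable [∀ n, TopologicalSpace (H n)] [∀ n, DiscreteTopology (H n)]
  [MeasurableSpace (∀ n, H n)] [BorelSpace (∀ n, H n)]

theorem meas_valid : Measurable (Valid h) := by
  unfold Valid
  refine Measurable.forall (fun n => ?_)
  refine meas_fin _ (n + 1) (fun w w' hw hP => ?_)
  rw [hw n (Nat.lt_succ_self n)]
  exact hP

theorem meas_inC : Measurable (fun w : ∀ n, H n => InC (cd h w) (yy e h w)) := by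
  unfold InC
  refine Measurable.forall (fun n => ?_)
  refine meas_fin _ (n + 1) (fun w w' hw hP => ?_)
  rw [cd_congr h (hw n (Nat.lt_succ_self n)),
    R_congr (z := yy e h w') (z' := yy e h w) (fun j hj => yy_congr e h (hw j hj))]
  exact hP

theorem meas_top : Measurable (fun w : ∀ n, H n => Top h (cd h w) (yy e h w)) := by
  unfold Top
  refine Measurable.forall (fun k => Measurable.exists (fun l => ?_))
  refine Measurable.and measurable_const (Measurable.exists (fun n => ?_))
  by_cases hln : l ≤ n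
  · refine Measurable.and measurable_const (Measurable.forall (fun n' => ?_))
    by_cases hn : n ≤ n'
    · refine meas_fin _ (n' + 1) (fun w w' hw hP _ z hz hag => ?_)
      rw [cd_congr h (hw n' (Nat.lt_succ_self n'))] at hz
      rw [yy_congr e h (hw n (lt_of_le_of_lt hn (Nat.lt_succ_self n')))]
      refine hP hn z hz (fun j hj => ?_)
      rw [hag j hj]
      exact yy_congr e h (hw j (lt_of_lt_of_le hj (le_trans hln (le_trans hn (Nat.le_succ n')))))
    · have e1 : (fun w : ∀ n, H n => n ≤ n' → ∀ z : ∀ n, H n, R n' z ∈ cd h w n' →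
        (∀ j, j < l → z j = yy e h w j) → h n (z n) ≤ h n (yy e h w n)) = fun _ => True := by
        funext w
        simp [hn]
      rw [e1]
      exact measurable_const
  · have e1 : (fun w : ∀ n, H n => l ≤ n ∧ ∀ n', n ≤ n' → ∀ z : ∀ n, H n, R n' z ∈ cd h w n' →
        (∀ j, j < l → z j = yy e h w j) → h n (z n) ≤ h n (yy e h w n)) = fun _ => False := by
      funext w
      simp [hln]
    rw [e1]
    exact measurable_const

theorem meas_reg : Measurable (fun w : ∀ n, H n => Reg e (cd h w) (yy e h w)) := by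
  unfold Reg
  refine Measurable.exists (fun N => Measurable.exists (fun l0 => Measurable.forall (fun i => ?_)))
  refine Measurable.imp measurable_const (Measurable.forall (fun n => ?_))
  refine Measurable.imp measurable_const ?_
  refine meas_fin _ (max (n + 1) l0) (fun w w' hw hP z hz hag => ?_)
  have hn : n < max (n + 1) l0 := lt_of_lt_of_le (Nat.lt_succ_self n) (le_max_left _ _)
  rw [cd_congr h (hw n hn)] at hz
  have h1 := hP z hz (fun j hj => by
    rw [hag j hj]
    exact yy_congr e h (hw j (lt_of_lt_of_le hj (le_max_right _ _))))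
  unfold Win at h1 ⊢
  rw [cd_congr h (hw n hn)]
  exact h1

theorem meas_pw : Measurable (fun w : ∀ n, H n => ∃ N, PW e (cd h w) N (yy e h w)) := by
  unfold PW
  refine Measurable.exists (fun N => Measurable.forall (fun i => ?_))
  refine Measurable.imp measurable_const (Measurable.forall (fun n => ?_))
  by_cases hin : i ≤ n
  · refine Measurable.imp measurable_const ?_
    refine meas_fin _ (n + 1) (fun w w' hw hP => ?_)
    obtain ⟨t, u, h1, h2, h3, h4⟩ := hP
    have hi : i < n + 1 := lt_of_le_of_lt hin (Nat.lt_succ_self n)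
    refine ⟨t, u, h1, h2, ?_, fun v hv1 hv2 => ?_⟩
    · rw [yy_congr e h (hw i hi)]; exact h3
    · rw [cd_congr h (hw n (Nat.lt_succ_self n))]
      have e1 : R n (Function.update (yy e h w') i (t + v • e i)) =
          R n (Function.update (yy e h w) i (t + v • e i)) := by
        apply R_congr
        intro j hj
        by_cases hji : j = i
        · subst hji; simp
        · rw [Function.update_of_ne hji, Function.update_of_ne hji, yy_congr e h (hw j hj)]
      rw [e1]
      exact h4 v hv1 hv2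
  · have e1 : (fun w : ∀ n, H n => i ≤ n → Win e (cd h w) i n (yy e h w)) = fun _ => True := by
      funext w
      simp [hin]
    rw [e1]
    exact measurable_const

end meas

variable [∀ n, TopologicalSpace (H n)] [∀ n, DiscreteTopology (H n)]

theorem A0_borel : @MeasurableSet (∀ n, H n) (borel (∀ n, H n)) (A0 e h) := by
  let _ : MeasurableSpace (∀ n, H n) := borel _
  have _ : BorelSpace (∀ n, H n) := ⟨rfl⟩
  exact measurableSet_setOfPred.2
    (Measurable.and (meas_valid h) (Measurable.and (meas_inC e h)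
      (Measurable.and (meas_top e h) (meas_reg e h))))

theorem A1_borel : @MeasurableSet (∀ n, H n) (borel (∀ n, H n)) (A1 e h) := by
  let _ : MeasurableSpace (∀ n, H n) := borel _
  have _ : BorelSpace (∀ n, H n) := ⟨rfl⟩
  exact measurableSet_setOfPred.2
    (Measurable.and (meas_valid h) (Measurable.and (meas_inC e h) (Measurable.not (meas_pw e h))))

/-! ### The sets are strongly Haar meager -/

omit [∀ n, Countable (H n)] [∀ n, DiscreteTopology (H n)] in
theorem em_cont : Continuous (em e) :=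
  continuous_pi fun n => (continuous_of_discreteTopology (f := fun k : ℤ => k • e n)).comp
    (continuous_apply n)

theorem meagre_aux (he : ∀ n, h n (e n) = 1) (C : Set (ℕ → ℤ)) (Phi : Code H → (∀ n, H n) → Prop)
    (hC : ∀ x ∈ C, ∀ n, 0 ≤ x n ∧ x n ≤ (n : ℤ) + 1)
    (key : ∀ (F : Code H) (s : ∀ n, H n) (x0 : ℕ → ℤ) (m : ℕ), x0 ∈ C →
      (∀ x ∈ C, (∀ j, j < m → x j = x0 j) → ∀ n, ∃ x' ∈ C, (∀ j, j < n → x' j = x j) ∧
        Phi F (em e x' + s)) → False)
    (g : ∀ n, H n) :
    IsMeagre {c : (em e '' C : Set (∀ n, H n)) |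
      ∃ b ∈ {w | Valid h w ∧ Phi (cd h w) (yy e h w)}, (c : ∀ n, H n) = b + g} := by
  have hinj : ∀ (x x' : ℕ → ℤ) (j : ℕ), em e x j = em e x' j → x j = x' j := by
    intro x x' j hj
    have h1 := congrArg (h j) hj
    unfold em at h1
    rw [map_zsmul, map_zsmul, he, zsmul_eq_mul, zsmul_eq_mul, mul_one, mul_one] at h1
    exact_mod_cast h1
  set Z : Set (em e '' C : Set (∀ n, H n)) := {c : (em e '' C : Set (∀ n, H n)) |
    ∃ b ∈ {w | Valid h w ∧ Phi (cd h w) (yy e h w)}, (c : ∀ n, H n) = b + g} with hZ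
  rcases Set.eq_empty_or_nonempty Z with h0 | ⟨c0, b0, ⟨hv0, hp0⟩, hc0⟩
  · rw [h0]; exact IsMeagre.empty
  · let F : Code H := cd h b0
    let s : ∀ n, H n := fun n => - g n - GG h n (F n) • e n
    obtain ⟨y0, hy0C, hy0⟩ := c0.2
    have hsub : Z ⊆ {c | Phi F (c.1 + s)} := by
      rintro c ⟨b, ⟨hv, hp⟩, hc⟩
      obtain ⟨y, hyC, hy⟩ := c.2
      have hcd : ∀ n, cd h b n = F n := by
        intro n
        by_contra hne
        have h1 := GG_sep h n _ _ hne
        have h2 : |h n (b n) - GG h n (cd h b n)| ≤ rr h n (cd h b n) := hv n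
        have h3 : |h n (b0 n) - GG h n (F n)| ≤ rr h n (F n) := hv0 n
        have h4 : |h n (b n) - h n (b0 n)| ≤ (n : ℚ) + 1 := by
          have e1 : b n = y n • e n - g n := by
            have := congrFun hc n
            rw [← hy] at this
            have h5 : y n • e n = b n + g n := this
            rw [h5, add_sub_cancel_right]
          have e2 : b0 n = y0 n • e n - g n := by
            have := congrFun hc0 n
            rw [← hy0] at this
            have h5 : y0 n • e n = b0 n + g n := this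
            rw [h5, add_sub_cancel_right]
          have e3 : h n (b n) - h n (b0 n) = (y n : ℚ) - y0 n := by
            rw [e1, e2, map_sub, map_sub, map_zsmul, map_zsmul, he, zsmul_eq_mul, zsmul_eq_mul]
            ring
          rw [e3, abs_le]
          have h5 := hC y hyC n
          have h6 := hC y0 hy0C n
          have h5a : (0 : ℚ) ≤ y n := by exact_mod_cast h5.1
          have h5b : (y n : ℚ) ≤ n + 1 := by exact_mod_cast h5.2
          have h6a : (0 : ℚ) ≤ y0 n := by exact_mod_cast h6.1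
          have h6b : (y0 n : ℚ) ≤ n + 1 := by exact_mod_cast h6.2
          constructor <;> linarith
        have h7 : |(GG h n (cd h b n) : ℚ) - GG h n (F n)| ≤
            |h n (b n) - GG h n (cd h b n)| + |h n (b n) - h n (b0 n)| +
              |h n (b0 n) - GG h n (F n)| := by
          have a1 := le_abs_self (h n (b n) - GG h n (cd h b n))
          have a2 := neg_abs_le (h n (b n) - GG h n (cd h b n))
          have a3 := le_abs_self (h n (b n) - h n (b0 n))
          have a4 := neg_abs_le (h n (b n) - h n (b0 n))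
          have a5 := le_abs_self (h n (b0 n) - GG h n (F n))
          have a6 := neg_abs_le (h n (b0 n) - GG h n (F n))
          rw [abs_le]
          constructor <;> linarith
        linarith
      have hcd' : cd h b = F := funext hcd
      have hyy : yy e h b = c.1 + s := by
        funext n
        have e2 : yy e h b n = b n - GG h n (cd h b n) • e n := rfl
        rw [e2, hcd n, hc]
        simp only [Pi.add_apply, s]
        abel
      show Phi F (c.1 + s)
      rw [← hcd', ← hyy]
      exact hp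
    refine IsMeagre.mono hsub (IsNowhereDense.isMeagre (nwd_of _ _ (fun x0 m hx => ?_)))
    obtain ⟨x00, hx00C, hx00⟩ := x0.2
    refine key F s x00 m hx00C (fun x hxC hag n => ?_)
    obtain ⟨x', h1, h2⟩ := hx ⟨em e x, x, hxC, rfl⟩ (fun j hj => by
      rw [← hx00]
      show x j • e j = x00 j • e j
      rw [hag j hj]) n
    obtain ⟨x'', hx''C, hx''⟩ := x'.2
    refine ⟨x'', hx''C, fun j hj => ?_, ?_⟩
    · refine hinj x'' x j ?_
      rw [hx'']
      exact h2 j hj
    · rw [hx'']
      exact h1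

theorem isClosed_finZ (P : (ℕ → ℤ) → Prop) (M : ℕ)
    (h : ∀ w w' : ℕ → ℤ, (∀ j, j < M → w' j = w j) → P w → P w') : IsClosed {w | P w} :=
  isClosed_fin (H := fun _ => ℤ) P M h

theorem C1_compact : IsCompact C1 := by
  have e : C1 = Set.pi Set.univ (fun n : ℕ => Set.Icc (0 : ℤ) ((n : ℤ) + 1)) := by
    ext x
    rw [Set.mem_univ_pi]
    exact Iff.rfl
  rw [e]
  exact isCompact_univ_pi (fun n => (Set.finite_Icc _ _).isCompact)

theorem C0_compact : IsCompact C0 := by
  refine C1_compact.of_isClosed_subset ?_ ?_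
  · have e : C0 = ⋂ n : ℕ, {x : ℕ → ℤ | 0 ≤ x n ∧ x n ≤ (n : ℤ) + 1 - (dc x n : ℤ)} := by
      ext x
      simp [C0]
    rw [e]
    refine isClosed_iInter (fun n => ?_)
    refine isClosed_finZ _ (n + 1) (fun w w' h hP => ?_)
    rw [h n (Nat.lt_succ_self n), dc_congr (fun j hj => h j (Nat.lt_succ_of_lt hj))]
    exact hP
  · intro x hx n
    have := hx n
    have h2 : (0 : ℤ) ≤ dc x n := Int.natCast_nonneg _
    exact ⟨this.1, by linarith [this.2]⟩

theorem one_mem_C0 : (fun _ => 1 : ℕ → ℤ) ∈ C0 := by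
  intro n
  have : (dc (fun _ => 1 : ℕ → ℤ) n : ℤ) ≤ n := by exact_mod_cast dc_le _ n
  constructor
  · norm_num
  · linarith

theorem A0_shm (he : ∀ n, h n (e n) = 1) : StronglyHaarMeager (A0 e h) := by
  refine ⟨A0 e h, A0_borel e h, subset_rfl, em e '' C0, C0_compact.image (em_cont e),
    ⟨_, _, one_mem_C0, rfl⟩, fun g => ?_⟩
  refine meagre_aux e h he C0 (Phi0 e h) (fun x hx n => ?_) (key0 he) g
  have := hx n
  have h2 : (0 : ℤ) ≤ dc x n := Int.natCast_nonneg _
  exact ⟨this.1, by linarith [this.2]⟩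

theorem A1_shm (he : ∀ n, h n (e n) = 1) : StronglyHaarMeager (A1 e h) := by
  refine ⟨A1 e h, A1_borel e h, subset_rfl, em e '' C1, C1_compact.image (em_cont e),
    ⟨_, fun _ => 0, fun n => ?_, rfl⟩, fun g => ?_⟩
  · have : (0 : ℤ) ≤ n := Int.natCast_nonneg n
    exact ⟨le_rfl, by linarith⟩
  · exact meagre_aux e h he C1 (Phi1 e) (fun x hx n => hx n) key1 g

end coding

end Pool.Agent.Y884.SHM
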