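import Pool.Agent.Y884.SHM.Topo

/-!
The union of the two sets is not strongly Haar meager (products of countable discrete groups).
-/

open Set Topology

namespace Pool.Agent.Y884.SHM

variable {H : ℕ → Type} [∀ n, AddCommGroup (H n)] [∀ n, Countable (H n)]
  [∀ n, TopologicalSpace (H n)] [∀ n, DiscreteTopology (H n)] (e : ∀ n, H n) (h : ∀ n, H n →+ ℚ)

omit [∀ n, AddCommGroup (H n)] [∀ n, Countable (H n)] in
/-- exact finite projections of a compact set -/
theorem exists_code (K : Set (∀ n, H n)) (hK : IsCompact K) :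
    ∃ F : Code H, ∀ n (ζ : ∀ i : Fin (n + 1), H i), ζ ∈ F n ↔ ∃ z ∈ K, R n z = ζ := by
  have hfin : ∀ n, ((R n : (∀ n, H n) → _) '' K).Finite := by
    intro n
    have hc : Continuous (R n : (∀ n, H n) → _) :=
      continuous_pi (fun i => continuous_apply (i : ℕ))
    exact (hK.image hc).finite_of_discrete
  refine ⟨fun n => (hfin n).toFinset, fun n ζ => ?_⟩
  rw [Set.Finite.mem_toFinset]
  exact Iff.rfl

omit [∀ n, Countable (H n)] in
theorem union_large (K : Set (∀ n, H n)) (hK : IsCompact K) (hne : K.Nonempty) (F : Code H)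
    (hF : ∀ n (ζ : ∀ i : Fin (n + 1), H i), ζ ∈ F n ↔ ∃ z ∈ K, R n z = ζ) :
    ¬ IsMeagre {c : K | Phi0 e h F c.1 ∨ Phi1 e F c.1} := by
  intro hme
  have : CompactSpace K := isCompact_iff_compactSpace.1 hK
  have : Nonempty K := hne.to_subtype
  have hin : ∀ c : K, InC F c.1 := fun c n => (hF n _).2 ⟨c.1, c.2, rfl⟩
  -- the sets E N
  let E : ℕ → Set K := fun N => {c : K | PW e F N c.1}
  have hEclosed : ∀ N, IsClosed (E N) := by
    intro N
    have e1 : E N = ⋂ i : ℕ, ⋂ _ : N ≤ i, ⋂ n : ℕ, ⋂ _ : i ≤ n, {c : K | Win e F i n c.1} := by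
      ext c
      simp [E, PW]
    rw [e1]
    refine isClosed_iInter (fun i => isClosed_iInter (fun _ => isClosed_iInter (fun n =>
      isClosed_iInter (fun hin => ?_))))
    have h1 : IsClosed {w : ∀ n, H n | Win e F i n w} := by
      refine isClosed_fin _ (n + 1) (fun w w' hw hP => ?_)
      obtain ⟨t, u, h1, h2, h3, h4⟩ := hP
      have hi : i < n + 1 := lt_of_le_of_lt hin (Nat.lt_succ_self n)
      refine ⟨t, u, h1, h2, ?_, fun v hv1 hv2 => ?_⟩
      · rw [hw i hi]; exact h3
      · have e1 : R n (Function.update w' i (t + v • e i)) =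
            R n (Function.update w i (t + v • e i)) := by
          apply R_congr
          intro j hj
          by_cases hji : j = i
          · subst hji; simp
          · rw [Function.update_of_ne hji, Function.update_of_ne hji, hw j hj]
        rw [e1]
        exact h4 v hv1 hv2
    exact h1.preimage continuous_subtype_val
  -- some E N has interior
  have hN : ∃ N, (interior (E N)).Nonempty := by
    by_contra hno
    have hno' : ∀ N, interior (E N) = ∅ := fun N => by
      by_contra hc
      exact hno ⟨N, Set.nonempty_iff_ne_empty.2 hc⟩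
    have h1 : ∀ N, IsMeagre (E N) := fun N =>
      ((hEclosed N).isNowhereDense_iff.2 (hno' N)).isMeagre
    have h2 : IsMeagre (Set.univ : Set K) := by
      refine IsMeagre.mono ?_ (hme.union (isMeagre_iUnion h1))
      intro c _
      by_cases hc : ∃ N, PW e F N c.1
      · obtain ⟨N, hN⟩ := hc
        exact Or.inr (Set.mem_iUnion.2 ⟨N, hN⟩)
      · exact Or.inl (Or.inr ⟨hin c, hc⟩)
    exact not_isMeagre_of_isOpen isOpen_univ Set.univ_nonempty h2
  obtain ⟨N, y0, hy0⟩ := hN
  obtain ⟨l0, hl0⟩ := exists_cyl (mem_interior_iff_mem_nhds.1 hy0)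
  let V : Set K := {c : K | ∀ j, j < l0 → c.1 j = y0.1 j}
  have hVo : IsOpen V := isOpen_cyl K y0.1 l0
  have hVne : V.Nonempty := ⟨y0, fun _ _ => rfl⟩
  have hreg : ∀ c ∈ V, Reg e F c.1 := by
    intro c hc
    refine ⟨max N l0, l0, fun i hi n hn z hz hag => ?_⟩
    obtain ⟨z', hz'K, hz'⟩ := (hF n _).1 hz
    have hzz : ∀ j, j < n + 1 → z' j = z j := fun j hj => congrFun hz' ⟨j, hj⟩
    have hln : l0 ≤ n := le_trans (le_trans (le_max_right _ _) hi) hn
    have h1 : (⟨z', hz'K⟩ : K) ∈ E N := by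
      apply hl0
      intro j hj
      show z' j = y0.1 j
      rw [hzz j (lt_of_lt_of_le hj (le_trans hln (Nat.le_succ n))), hag j hj]
      exact hc j hj
    obtain ⟨t, u, h2, h3, h4, h5⟩ := h1 i (le_trans (le_max_left _ _) hi) n hn
    have hi' : i < n + 1 := lt_of_le_of_lt hn (Nat.lt_succ_self n)
    refine ⟨t, u, h2, h3, ?_, fun v hv1 hv2 => ?_⟩
    · rw [← hzz i hi']; exact h4
    · have e1 : R n (Function.update z i (t + v • e i)) =
          R n (Function.update z' i (t + v • e i)) := by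
        apply R_congr
        intro j hj
        by_cases hji : j = i
        · subst hji; simp
        · rw [Function.update_of_ne hji, Function.update_of_ne hji, hzz j hj]
      rw [e1]
      exact h5 v hv1 hv2
  -- the top sets
  let T : ℕ → Set K := fun k => {c : K | ∃ l, k ≤ l ∧ ∃ n, l ≤ n ∧ ∀ n', n ≤ n' → ∀ z : ∀ n, H n,
    R n' z ∈ F n' → (∀ j, j < l → z j = c.1 j) → h n (z n) ≤ h n (c.1 n)}
  have hTopen : ∀ k, IsOpen (T k) := by
    intro k
    rw [isOpen_iff_mem_nhds]
    rintro c ⟨l, hkl, n, hln, hb⟩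
    refine Filter.mem_of_superset ((isOpen_cyl K c.1 (n + 1)).mem_nhds (fun _ _ => rfl)) ?_
    intro c' hc'
    refine ⟨l, hkl, n, hln, fun n' hn' z hz hag => ?_⟩
    have e1 := hc' n (Nat.lt_succ_self n)
    rw [e1]
    refine hb n' hn' z hz (fun j hj => ?_)
    rw [hag j hj]
    exact hc' j (lt_of_lt_of_le hj (le_trans hln (Nat.le_succ n)))
  have hTdense : ∀ k, Dense (T k) := by
    intro k c
    rw [mem_closure_iff_nhds]
    intro U hU
    obtain ⟨m, hm⟩ := exists_cyl hU
    let l := max k m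
    have hS : IsCompact (K ∩ {z : ∀ n, H n | ∀ j, j < l → z j = c.1 j}) := by
      refine hK.inter_right (isClosed_fin _ l (fun w w' hw hP j hj => ?_))
      rw [hw j hj]
      exact hP j hj
    have hcont : Continuous fun z : ∀ n, H n => h l (z l) :=
      (continuous_of_discreteTopology (f := fun a : H l => h l a)).comp (continuous_apply l)
    obtain ⟨z0, hz0, hmax⟩ := hS.exists_isMaxOn ⟨c.1, c.2, fun _ _ => rfl⟩ hcont.continuousOn
    refine ⟨⟨z0, hz0.1⟩, hm _ (fun j hj => hz0.2 j (lt_of_lt_of_le hj (le_max_right _ _))), l,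
      le_max_left _ _, l, le_rfl, fun n' hn' z hz hag => ?_⟩
    obtain ⟨z', hz'K, hz'⟩ := (hF n' _).1 hz
    have hzz : ∀ j, j < n' + 1 → z' j = z j := fun j hj => congrFun hz' ⟨j, hj⟩
    have h1 : z' ∈ K ∩ {z : ∀ n, H n | ∀ j, j < l → z j = c.1 j} := by
      refine ⟨hz'K, fun j hj => ?_⟩
      rw [hzz j (lt_of_lt_of_le hj (le_trans hn' (Nat.le_succ n'))), hag j hj]
      exact hz0.2 j hj
    have h2 : h l (z' l) ≤ h l (z0 l) := hmax h1
    rw [hzz l (lt_of_le_of_lt hn' (Nat.lt_succ_self n'))] at h2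
    exact h2
  -- conclusion
  have hTm : ∀ k, IsMeagre (T k)ᶜ := by
    intro k
    rw [IsMeagre, compl_compl]
    exact residual_of_dense_open (hTopen k) (hTdense k)
  have hfinal : IsMeagre V := by
    refine IsMeagre.mono ?_ (hme.union (isMeagre_iUnion hTm))
    intro c hc
    by_cases hT : ∃ k, c ∉ T k
    · obtain ⟨k, hk⟩ := hT
      exact Or.inr (Set.mem_iUnion.2 ⟨k, hk⟩)
    · left
      left
      refine ⟨hin c, fun k => ?_, hreg c hc⟩
      have : c ∈ T k := by
        by_contra hk
        exact hT ⟨k, hk⟩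
      exact this
  exact not_isMeagre_of_isOpen hVo hVne hfinal

theorem union_not_shm (he : ∀ n, h n (e n) = 1) : ¬ StronglyHaarMeager (A0 e h ∪ A1 e h) := by
  rintro ⟨B, -, hAB, K, hK, hne, hB⟩
  obtain ⟨F, hF⟩ := exists_code K hK
  apply union_large e h K hK hne F hF
  refine IsMeagre.mono ?_ (hB (fun n => - (GG h n (F n) • e n)))
  intro c hc
  refine ⟨fun n => c.1 n + GG h n (F n) • e n, hAB ?_, ?_⟩
  · have hb : ∀ n, |h n (c.1 n + GG h n (F n) • e n) - GG h n (F n)| ≤ rr h n (F n) := by
      intro n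
      have e1 : h n (c.1 n + GG h n (F n) • e n) - GG h n (F n) = h n (c.1 n) := by
        rw [map_add, map_zsmul, he, zsmul_eq_mul, mul_one, add_sub_cancel_right]
      rw [e1]
      exact rr_le h ((hF n _).2 ⟨c.1, c.2, rfl⟩)
    have hd : ∀ n, dF h n (c.1 n + GG h n (F n) • e n) = F n := fun n => dF_eq h (hb n)
    have hcd : cd h (fun n => c.1 n + GG h n (F n) • e n) = F := funext hd
    have hyy : yy e h (fun n => c.1 n + GG h n (F n) • e n) = c.1 := by
      funext n
      unfold yy
      rw [hd n, add_sub_cancel_right]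
    have hv : Valid h (fun n => c.1 n + GG h n (F n) • e n) := by
      intro n
      rw [hd n]
      exact hb n
    rcases hc with hc | hc
    · left
      refine ⟨hv, ?_⟩
      rw [hcd, hyy]
      exact hc
    · right
      refine ⟨hv, ?_⟩
      rw [hcd, hyy]
      exact hc
  · funext n
    simp

end Pool.Agent.Y884.SHM
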